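import Pool.Agent.Helper37.KD.DefsC
import Pool.Agent.Helper37.KD.St.A1

/-! KD Part I, piece C1: the commutator error is of second order. -/

namespace KD

namespace I.C1

open Finset

section aux
variable {G : Type*} [Fintype G] [AddCommGroup G]

omit [AddCommGroup G] in
theorem Qf_nonneg (m u : G → ℝ) (hu : ∀ z, 0 ≤ u z) : 0 ≤ Qf m u :=
  Finset.sum_nonneg (fun z _ => div_nonneg (sq_nonneg _) (hu z))

theorem sqrtQ_add (m m' u : G → ℝ) (hu : ∀ z, 0 ≤ u z) :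
    √(Qf (fun z => m z + m' z) u) ≤ √(Qf m u) + √(Qf m' u) := by
  have h1 : Qf (fun z => m z + m' z) u
      = Qf m u + 2 * ∑ z, (m z / √(u z)) * (m' z / √(u z)) + Qf m' u := by
    unfold Qf
    rw [Finset.mul_sum, ← Finset.sum_add_distrib, ← Finset.sum_add_distrib]
    refine Finset.sum_congr rfl (fun z _ => ?_)
    rcases eq_or_lt_of_le (hu z) with h | h
    · simp [← h]
    · rw [div_mul_div_comm, Real.mul_self_sqrt (hu z)]
      field_simp
      ring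
  have h2 : ∑ z, (m z / √(u z)) * (m' z / √(u z)) ≤ √(Qf m u) * √(Qf m' u) := by
    refine (Real.sum_mul_le_sqrt_mul_sqrt _ _ _).trans (le_of_eq ?_)
    unfold Qf
    congr 2 <;> refine Finset.sum_congr rfl (fun z _ => ?_) <;> rw [div_pow, Real.sq_sqrt (hu z)]
  have h3 := Real.sq_sqrt (Qf_nonneg m u hu)
  have h4 := Real.sq_sqrt (Qf_nonneg m' u hu)
  refine Real.sqrt_le_iff.2 ⟨by positivity, ?_⟩
  nlinarith

theorem sqrtQ_sub (m m' u : G → ℝ) (hu : ∀ z, 0 ≤ u z) :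
    √(Qf (fun z => m z - m' z) u) ≤ √(Qf m u) + √(Qf m' u) := by
  have h := sqrtQ_add m (fun z => - m' z) u hu
  have h2 : Qf (fun z => - m' z) u = Qf m' u := by unfold Qf; simp
  rw [h2] at h
  simpa [sub_eq_add_neg] using h

/-- contraction in square root form -/
theorem sqrtQ_cv (e q m u : G → ℝ) (hq : ∀ z, 0 < q z) (hu : ∀ z, 0 ≤ u z)
    (hm : ∀ z, u z = 0 → m z = 0) {c : ℝ} (hc : 0 ≤ c) (he : ∑ w, e w ^ 2 / q w ≤ c ^ 2) :
    √(Qf (cv e m) (cv q u)) ≤ c * √(Qf m u) := by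
  refine Real.sqrt_le_iff.2 ⟨by positivity, ?_⟩
  rw [mul_pow, Real.sq_sqrt (Qf_nonneg m u hu)]
  exact (Qf_cv_le e q m u hq hu hm).trans (mul_le_mul_of_nonneg_right he (Qf_nonneg m u hu))

omit [AddCommGroup G] in
theorem Qf_self (u : G → ℝ) : Qf u u = ∑ z, u z := by
  unfold Qf
  refine Finset.sum_congr rfl (fun z _ => ?_)
  by_cases h : u z = 0
  · simp [h]
  · field_simp

end aux

section tr
variable {d N : ℕ}

theorem Am_Ap (z : GG d N) : Am 1 (Ap 1 z) = z := by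
  unfold Am Ap; ext1 <;> simp

theorem Ap_Am (z : GG d N) : Ap 1 (Am 1 z) = z := by
  unfold Am Ap; ext1 <;> simp

theorem Am_sub (z w : GG d N) : Am 1 (z - w) = Am 1 z - Am 1 w := by
  unfold Am
  ext1
  · simp; abel
  · simp

/-- the transport equivalence -/
def eA (d N : ℕ) : GG d N ≃ GG d N where
  toFun := Am 1
  invFun := Ap 1
  left_inv := Ap_Am
  right_inv := Am_Ap

end tr

variable {d : ℕ} {s c0 C0 C1 : ℝ} (E : Env d s c0 C0 C1)

/-- transported levels -/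
noncomputable def ut (ν : E.G → ℝ) (k : ℕ) : E.G → ℝ :=
  fun z => lev E.q (fun y => ν (Ap 1 y)) k (Am 1 z)

theorem ut_zero (ν : E.G → ℝ) : ut E ν 0 = ν := by
  funext z
  show ν (Ap 1 (Am 1 z)) = ν z
  rw [Ap_Am]

theorem ut_succ (ν : E.G → ℝ) (k : ℕ) :
    ut E ν (k + 1) = cv (fun w => E.q k (Am 1 w)) (ut E ν k) := by
  funext z
  unfold ut cv
  rw [lev_succ]
  unfold cv
  refine (Fintype.sum_equiv (eA d E.N) _ _ (fun w => ?_)).symm
  show E.q k (Am 1 w) * lev E.q _ k (Am 1 (z - w)) = E.q k (Am 1 w) * lev E.q _ k (Am 1 z - Am 1 w)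
  rw [Am_sub]

/-- difference of levels -/
noncomputable def D (ν : E.G → ℝ) (k : ℕ) : E.G → ℝ := fun z => lev E.q ν k z - ut E ν k z

theorem D_zero (ν : E.G → ℝ) : D E ν 0 = fun _ => 0 := by
  funext z
  unfold D
  rw [ut_zero, lev_zero]; ring

theorem D_succ (ν : E.G → ℝ) (k : ℕ) :
    D E ν (k + 1) = fun z => cv (E.q k) (D E ν k) z + cv (com1 (E.q k)) (lev E.q ν k) z
      - cv (com1 (E.q k)) (D E ν k) z := by
  funext z
  show lev E.q ν (k + 1) z - ut E ν (k + 1) z = _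
  rw [lev_succ, ut_succ]
  unfold cv D com1
  rw [← Finset.sum_sub_distrib, ← Finset.sum_add_distrib, ← Finset.sum_sub_distrib]
  refine Finset.sum_congr rfl (fun w _ => ?_)
  ring

/-- main part -/
noncomputable def L (ν : E.G → ℝ) (k : ℕ) : E.G → ℝ := fun z =>
  (1 / 2) * ∑ j ∈ range (k + 1), ∑ i, (E.mm ν k j i (z + xs (ee i)) - E.mm ν k j i (z - xs (ee i)))

theorem mm_self (ν : E.G → ℝ) (k : ℕ) (i : Fin d) :
    E.mm ν k k i = cv (fun w : E.G => ((w.2 i).valMinAbs : ℝ) * E.q k w) (lev E.q ν k) := by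
  unfold Env.mm
  rw [Nat.sub_self]; rfl

theorem mm_succ (ν : E.G → ℝ) (k j : ℕ) (hj : j ≤ k) (i : Fin d) :
    E.mm ν (k + 1) j i = cv (E.q (k + 1)) (E.mm ν k j i) := by
  unfold Env.mm
  have : k + 1 - j = (k - j) + 1 := by omega
  rw [this, lev_succ]
  have h2 : j + 1 + (k - j) = k + 1 := by omega
  simp only [h2]

/-- diagonal part of `L` -/
theorem diag (ν : E.G → ℝ) (k : ℕ) (z : E.G) :
    (1 / 2) * ∑ i, (E.mm ν k k i (z + xs (ee i)) - E.mm ν k k i (z - xs (ee i)))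
      = cv (lin1 (E.q k)) (lev E.q ν k) z := by
  have h : ∀ i : Fin d, E.mm ν k k i (z + xs (ee i)) - E.mm ν k k i (z - xs (ee i))
      = ∑ w : E.G, ((w.2 i).valMinAbs : ℝ) * (E.q k (w + xs (ee i)) - E.q k (w - xs (ee i)))
        * lev E.q ν k (z - w) := by
    intro i
    rw [mm_self, sub_eq_add_neg z, cv_shift_ker, cv_shift_ker]
    unfold cv
    rw [← Finset.sum_sub_distrib]
    refine Finset.sum_congr rfl (fun w _ => ?_)
    have e1 : (w + xs (ee i) : E.G).2 = w.2 := by simp [xs]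
    have e2 : (w + -xs (ee i) : E.G).2 = w.2 := by simp [xs]
    dsimp only
    rw [e1, e2, sub_eq_add_neg w]
    ring
  simp only [h]
  rw [Finset.sum_comm, Finset.mul_sum]
  unfold cv lin1
  refine Finset.sum_congr rfl (fun w _ => ?_)
  rw [← Finset.sum_mul]
  ring

theorem L_zero (ν : E.G → ℝ) : L E ν 0 = cv (lin1 (E.q 0)) (lev E.q ν 0) := by
  funext z
  unfold L
  rw [Finset.sum_range_one, diag]

theorem L_succ (ν : E.G → ℝ) (k : ℕ) :
    L E ν (k + 1) = fun z => cv (E.q (k + 1)) (L E ν k) z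
      + cv (lin1 (E.q (k + 1))) (lev E.q ν (k + 1)) z := by
  funext z
  unfold L
  rw [Finset.sum_range_succ, mul_add, diag]
  congr 1
  rw [cv_smul]
  dsimp only
  congr 1
  rw [cv_sum]
  dsimp only
  refine Finset.sum_congr rfl (fun j hj => ?_)
  rw [Finset.mem_range] at hj
  rw [cv_sum]
  dsimp only
  refine Finset.sum_congr rfl (fun i _ => ?_)
  rw [mm_succ E ν k j (by omega), cv_sub]
  dsimp only
  rw [sub_eq_add_neg z, cv_shift, cv_shift]
  simp only [sub_eq_add_neg]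

theorem Er_eq (ν : E.G → ℝ) (k : ℕ) : E.Er ν k = fun z => D E ν (k + 1) z - L E ν k z := rfl

theorem Er_zero (ν : E.G → ℝ) :
    E.Er ν 0 = cv (fun w => com1 (E.q 0) w - lin1 (E.q 0) w) (lev E.q ν 0) := by
  funext z
  rw [Er_eq, D_succ, L_zero, D_zero]
  unfold cv
  simp [Finset.sum_sub_distrib, sub_mul]

theorem Er_succ (ν : E.G → ℝ) (k : ℕ) :
    E.Er ν (k + 1) = fun z => cv (E.q (k + 1)) (E.Er ν k) z
      + cv (fun w => com1 (E.q (k + 1)) w - lin1 (E.q (k + 1)) w) (lev E.q ν (k + 1)) z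
      - cv (com1 (E.q (k + 1))) (D E ν (k + 1)) z := by
  funext z
  rw [Er_eq, D_succ, L_succ, Er_eq, cv_sub]
  dsimp only
  have : cv (fun w => com1 (E.q (k + 1)) w - lin1 (E.q (k + 1)) w) (lev E.q ν (k + 1)) z
      = cv (com1 (E.q (k + 1))) (lev E.q ν (k + 1)) z
        - cv (lin1 (E.q (k + 1))) (lev E.q ν (k + 1)) z := by
    unfold cv
    rw [← Finset.sum_sub_distrib]
    exact Finset.sum_congr rfl (fun w _ => by ring)
  rw [this]
  ring

/-- `D` vanishes where the density vanishes -/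
theorem D_compat (ν : E.G → ℝ) (hν : IsP ν) (k : ℕ) (hk : k ≤ E.K + 1) (z : E.G)
    (h : lev E.q ν k z = 0) : D E ν k z = 0 := by
  rcases k with _ | k
  · rw [D_zero]
  · exact absurd h (E.u_pos hν (by omega) z).ne'

theorem ratio_le (hs : 0 < s) (k : ℕ) : (2 : ℝ) ^ k / Rad s E.M E.ε k ≤ E.ε := by
  have h1 := E.hM
  have h2 := E.hε
  have h3 := one_le_tim hs k
  unfold Rad
  rw [div_le_iff₀ (by have := tim_pos s k; positivity)]
  have h4 : (1 : ℝ) ≤ E.M * tim s k := by nlinarith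
  have : E.ε * (E.M / E.ε * 2 ^ k * tim s k) = 2 ^ k * (E.M * tim s k) := by
    field_simp
  rw [this]
  nlinarith [pow_pos (two_pos : (0 : ℝ) < 2) k]

theorem ratio_nonneg (k : ℕ) : 0 ≤ (2 : ℝ) ^ k / Rad s E.M E.ε k :=
  div_nonneg (by positivity) (E.R_pos k).le

theorem com_norm (hs : 0 < s) (hC1 : 0 < C1) {k : ℕ} (hk : k ≤ E.K) :
    ∑ w, com1 (E.q k) w ^ 2 / E.q k w ≤ (√C1 * E.ε) ^ 2 := by
  refine ((E.ker k hk).c1).trans ?_
  rw [mul_pow, Real.sq_sqrt hC1.le]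
  have h1 := ratio_le E hs k
  have h2 := ratio_nonneg E k
  gcongr

theorem lin_norm (hs : 0 < s) (hC1 : 0 < C1) {k : ℕ} (hk : k ≤ E.K) :
    ∑ w, (com1 (E.q k) w - lin1 (E.q k) w) ^ 2 / E.q k w ≤ (√C1 * E.ε ^ 2) ^ 2 := by
  refine ((E.ker k hk).c2).trans ?_
  rw [mul_pow, Real.sq_sqrt hC1.le, ← pow_mul]
  have h1 := ratio_le E hs k
  have h2 := ratio_nonneg E k
  gcongr

theorem one_norm {k : ℕ} (hk : k ≤ E.K) : ∑ w, E.q k w ^ 2 / E.q k w ≤ (1 : ℝ) ^ 2 := by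
  have h : ∑ w, E.q k w ^ 2 / E.q k w = ∑ w, E.q k w := Qf_self (E.q k)
  rw [h, E.q_mass hk]; norm_num

theorem D_bound (hs : 0 < s) (hC1 : 0 < C1) (ν : E.G → ℝ) (hν : IsP ν) :
    ∀ k ≤ E.K + 1, √(Qf (D E ν k) (lev E.q ν k)) ≤ ((1 + √C1) ^ k - 1) * E.ε := by
  intro k
  induction k with
  | zero =>
      intro _
      rw [D_zero]
      unfold Qf
      simp
  | succ k ih =>
      intro hk
      have ih' := ih (by omega)
      have hu : ∀ z, 0 ≤ lev E.q ν k z := E.u_nonneg hν (by omega)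
      have hu1 : ∀ z, 0 ≤ lev E.q ν (k + 1) z := E.u_nonneg hν (by omega)
      have hq := fun z => E.q_pos (k := k) (by omega) z
      have hD : ∀ z, lev E.q ν k z = 0 → D E ν k z = 0 := fun z h =>
        D_compat E ν hν k (by omega) z h
      have hε := E.hε
      have hε1 := E.hε1
      have hC := Real.sqrt_nonneg C1
      have a1 : √(Qf (cv (E.q k) (D E ν k)) (lev E.q ν (k + 1))) ≤ 1 * √(Qf (D E ν k) (lev E.q ν k)) :=
        sqrtQ_cv _ _ _ _ hq hu hD zero_le_one (one_norm E (by omega))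
      have a2 : √(Qf (cv (com1 (E.q k)) (lev E.q ν k)) (lev E.q ν (k + 1)))
          ≤ (√C1 * E.ε) * √(Qf (lev E.q ν k) (lev E.q ν k)) :=
        sqrtQ_cv _ _ _ _ hq hu (fun z h => h) (by positivity) (com_norm E hs hC1 (by omega))
      have a3 : √(Qf (cv (com1 (E.q k)) (D E ν k)) (lev E.q ν (k + 1)))
          ≤ (√C1 * E.ε) * √(Qf (D E ν k) (lev E.q ν k)) :=
        sqrtQ_cv _ _ _ _ hq hu hD (by positivity) (com_norm E hs hC1 (by omega))
      rw [Qf_self, E.u_sum hν (by omega), Real.sqrt_one] at a2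
      rw [D_succ]
      have b1 := sqrtQ_sub (fun z => cv (E.q k) (D E ν k) z + cv (com1 (E.q k)) (lev E.q ν k) z)
        (cv (com1 (E.q k)) (D E ν k)) (lev E.q ν (k + 1)) hu1
      have b2 := sqrtQ_add (cv (E.q k) (D E ν k)) (cv (com1 (E.q k)) (lev E.q ν k))
        (lev E.q ν (k + 1)) hu1
      have hx := Real.sqrt_nonneg (Qf (D E ν k) (lev E.q ν k))
      set x := √(Qf (D E ν k) (lev E.q ν k)) with hxdef
      have hpow : (0 : ℝ) ≤ (1 + √C1) ^ k - 1 := by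
        have : (1 : ℝ) ≤ (1 + √C1) ^ k := one_le_pow₀ (by linarith)
        linarith
      have h3 : √C1 * E.ε * x ≤ √C1 * x := by
        have : √C1 * x * E.ε ≤ √C1 * x * 1 :=
          mul_le_mul_of_nonneg_left (by linarith) (by positivity)
        linarith
      have h4 : (1 + √C1) * x ≤ (1 + √C1) * (((1 + √C1) ^ k - 1) * E.ε) :=
        mul_le_mul_of_nonneg_left ih' (by positivity)
      calc _ ≤ _ := b1
        _ ≤ (1 * x + (√C1 * E.ε) * 1) + (√C1 * E.ε) * x := by linarith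
        _ ≤ (1 + √C1) * (((1 + √C1) ^ k - 1) * E.ε) + √C1 * E.ε := by linarith
        _ = ((1 + √C1) ^ (k + 1) - 1) * E.ε := by ring

theorem Er_norm (hs : 0 < s) (hC1 : 0 < C1) (ν : E.G → ℝ) (hν : IsP ν) :
    ∀ k ≤ E.K, √(Qf (E.Er ν k) (lev E.q ν (k + 1))) ≤ ((1 + √C1) ^ (k + 1) - 1) * E.ε ^ 2 := by
  intro k
  have hε := E.hε
  have hC := Real.sqrt_nonneg C1
  induction k with
  | zero =>
      intro _
      rw [Er_zero]
      have hu : ∀ z, 0 ≤ lev E.q ν 0 z := E.u_nonneg hν (by omega)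
      have a2 : √(Qf (cv (fun w => com1 (E.q 0) w - lin1 (E.q 0) w) (lev E.q ν 0)) (lev E.q ν (0 + 1)))
          ≤ (√C1 * E.ε ^ 2) * √(Qf (lev E.q ν 0) (lev E.q ν 0)) :=
        sqrtQ_cv _ _ _ _ (fun z => E.q_pos (k := 0) (by omega) z) hu (fun z h => h) (by positivity)
          (lin_norm E hs hC1 (by omega))
      rw [Qf_self, E.u_sum hν (by omega), Real.sqrt_one] at a2
      refine a2.trans (le_of_eq (by ring))
  | succ k ih =>
      intro hk
      have ih' := ih (by omega)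
      have hu : ∀ z, 0 ≤ lev E.q ν (k + 1) z := E.u_nonneg hν (by omega)
      have hu1 : ∀ z, 0 ≤ lev E.q ν (k + 1 + 1) z := E.u_nonneg hν (by omega)
      have hq := fun z => E.q_pos (k := k + 1) hk z
      have hp : ∀ z, lev E.q ν (k + 1) z ≠ 0 := fun z => (E.u_pos hν (by omega) z).ne'
      have a1 : √(Qf (cv (E.q (k + 1)) (E.Er ν k)) (lev E.q ν (k + 1 + 1)))
          ≤ 1 * √(Qf (E.Er ν k) (lev E.q ν (k + 1))) :=
        sqrtQ_cv _ _ _ _ hq hu (fun z h => absurd h (hp z)) zero_le_one (one_norm E hk)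
      have a2 : √(Qf (cv (fun w => com1 (E.q (k + 1)) w - lin1 (E.q (k + 1)) w) (lev E.q ν (k + 1)))
          (lev E.q ν (k + 1 + 1))) ≤ (√C1 * E.ε ^ 2) * √(Qf (lev E.q ν (k + 1)) (lev E.q ν (k + 1))) :=
        sqrtQ_cv _ _ _ _ hq hu (fun z h => h) (by positivity) (lin_norm E hs hC1 hk)
      have a3 : √(Qf (cv (com1 (E.q (k + 1))) (D E ν (k + 1))) (lev E.q ν (k + 1 + 1)))
          ≤ (√C1 * E.ε) * √(Qf (D E ν (k + 1)) (lev E.q ν (k + 1))) :=
        sqrtQ_cv _ _ _ _ hq hu (fun z h => absurd h (hp z)) (by positivity) (com_norm E hs hC1 hk)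
      rw [Qf_self, E.u_sum hν (by omega), Real.sqrt_one] at a2
      have a4 := D_bound E hs hC1 ν hν (k + 1) (by omega)
      rw [Er_succ]
      have b1 := sqrtQ_sub (fun z => cv (E.q (k + 1)) (E.Er ν k) z
          + cv (fun w => com1 (E.q (k + 1)) w - lin1 (E.q (k + 1)) w) (lev E.q ν (k + 1)) z)
        (cv (com1 (E.q (k + 1))) (D E ν (k + 1))) (lev E.q ν (k + 1 + 1)) hu1
      have b2 := sqrtQ_add (cv (E.q (k + 1)) (E.Er ν k))
        (cv (fun w => com1 (E.q (k + 1)) w - lin1 (E.q (k + 1)) w) (lev E.q ν (k + 1)))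
        (lev E.q ν (k + 1 + 1)) hu1
      have h5 : (√C1 * E.ε) * √(Qf (D E ν (k + 1)) (lev E.q ν (k + 1)))
          ≤ (√C1 * E.ε) * (((1 + √C1) ^ (k + 1) - 1) * E.ε) :=
        mul_le_mul_of_nonneg_left a4 (by positivity)
      calc _ ≤ _ := b1
        _ ≤ (1 * (((1 + √C1) ^ (k + 1) - 1) * E.ε ^ 2) + (√C1 * E.ε ^ 2) * 1)
            + (√C1 * E.ε) * (((1 + √C1) ^ (k + 1) - 1) * E.ε) := by linarith
        _ = ((1 + √C1) ^ (k + 1 + 1) - 1) * E.ε ^ 2 := by ring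

theorem Er_sum (ν : E.G → ℝ) (hν : IsP ν) (k : ℕ) (hk : k ≤ E.K) : ∑ z, E.Er ν k z = 0 := by
  unfold Env.Er
  rw [Finset.sum_sub_distrib, Finset.sum_sub_distrib, E.u_sum hν (by omega), ← Finset.mul_sum]
  have h1 : ∑ z, lev E.q (fun y => ν (Ap 1 y)) (k + 1) (Am 1 z) = 1 := by
    have e1 : ∑ z, lev E.q (fun y => ν (Ap 1 y)) (k + 1) (Am 1 z)
        = ∑ z, lev E.q (fun y => ν (Ap 1 y)) (k + 1) z :=
      Fintype.sum_equiv (eA d E.N) _ _ (fun z => rfl)
    rw [e1, sum_lev (fun j hj => E.q_mass (by omega)), ← hν.one]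
    exact Fintype.sum_equiv (eA d E.N).symm _ _ (fun z => rfl)
  have h2 : ∑ z : E.G, ∑ j ∈ range (k + 1), ∑ i : Fin d,
      (E.mm ν k j i (z + xs (ee i)) - E.mm ν k j i (z - xs (ee i))) = 0 := by
    rw [Finset.sum_comm]
    refine Finset.sum_eq_zero (fun j _ => ?_)
    rw [Finset.sum_comm]
    refine Finset.sum_eq_zero (fun i _ => ?_)
    rw [Finset.sum_sub_distrib, sum_shift, sum_shift_sub, sub_self]
  rw [h1, h2]
  ring

/-- the commutator error is of second order (recursion in I.2 (b)) -/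
theorem Er_bound (s c0 C0 C1 : ℝ) (d : ℕ) (hs : 0 < s) (hC1 : 0 < C1) (K : ℕ) :
    ∃ CK : ℝ, 0 < CK ∧ ∀ (E : Env d s c0 C0 C1), E.K = K → ∀ ν : E.G → ℝ, IsP ν → ∀ k ≤ K,
      Qf (E.Er ν k) (lev E.q ν (k + 1)) ≤ (CK * E.ε ^ 2) ^ 2 ∧ ∑ z, E.Er ν k z = 0 := by
  have hC := Real.sqrt_nonneg C1
  refine ⟨(1 + √C1) ^ (K + 1), by positivity, ?_⟩
  intro E hK ν hν k hk
  have hkE : k ≤ E.K := by omega
  refine ⟨?_, Er_sum E ν hν k hkE⟩
  have h1 := Er_norm E hs hC1 ν hν k hkE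
  have h0 := Qf_nonneg (E.Er ν k) (lev E.q ν (k + 1)) (E.u_nonneg hν (by omega))
  have h2 : √(Qf (E.Er ν k) (lev E.q ν (k + 1))) ≤ (1 + √C1) ^ (K + 1) * E.ε ^ 2 := by
    refine h1.trans (mul_le_mul_of_nonneg_right ?_ (sq_nonneg _))
    have : (1 + √C1) ^ (k + 1) ≤ (1 + √C1) ^ (K + 1) :=
      pow_le_pow_right₀ (by linarith) (by omega)
    linarith
  have h3 := Real.sq_sqrt h0
  have h4 := Real.sqrt_nonneg (Qf (E.Er ν k) (lev E.q ν (k + 1)))
  calc Qf (E.Er ν k) (lev E.q ν (k + 1)) = √(Qf (E.Er ν k) (lev E.q ν (k + 1))) ^ 2 := h3.symm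
    _ ≤ _ := by gcongr

end I.C1

end KD
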